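import Pool.Agent.W206.YP.Stm
import Pool.Agent.Helper834.EC.Dim1

set_option autoImplicit false

namespace Pool.Agent.W591.YP.DK

open MvPolynomial Pool.Agent.W206.YP

theorem main : S_DK := by
  intro σ _ Q hQ
  have hQ' : Q.IsPrime := hQ
  have hdom : IsDomain (MvPolynomial σ ℂ ⧸ Q) := Ideal.Quotient.isDomain Q
  have hft : Algebra.FiniteType ℂ (MvPolynomial σ ℂ ⧸ Q) :=
    Algebra.FiniteType.of_surjective (Ideal.Quotient.mkₐ ℂ Q) Ideal.Quotient.mk_surjective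
  refine ⟨?_, ?_⟩
  · obtain ⟨d, hd1, hd2⟩ := Pool.Agent.Helper834.EC.exists_ringKrullDim_eq_trdeg ℂ
      (MvPolynomial σ ℂ ⧸ Q)
    refine ⟨d, hd1, fun m => ⟨?_, ?_⟩⟩
    · rintro ⟨y, hy⟩
      have h1 := hy.cardinalMk_le_trdeg
      rw [hd2, Cardinal.mk_fin] at h1
      exact_mod_cast h1
    · intro hm
      obtain ⟨s, hs⟩ := exists_isTranscendenceBasis ℂ (MvPolynomial σ ℂ ⧸ Q)
      have h2 := hs.cardinalMk_eq_trdeg
      rw [hd2] at h2
      have h3 : Cardinal.mk (Fin m) ≤ Cardinal.mk s := by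
        rw [h2, Cardinal.mk_fin]
        exact_mod_cast hm
      obtain ⟨e⟩ := Cardinal.le_def _ _ |>.mp h3
      exact ⟨fun i => (e i : MvPolynomial σ ℂ ⧸ Q), hs.1.comp e e.injective⟩
  · have h := MvPolynomial.IsPrime.vanishingIdeal_zeroLocus (k := ℂ) (K := ℂ) Q
    ext f
    have h4 : f ∈ vanishingIdeal ℂ (zeroLocus ℂ Q) ↔ f ∈ Q := by rw [h]
    rw [← h4]
    rfl

end Pool.Agent.W591.YP.DK
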